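import Pool.Agent.W_MP_6c8c83_pr.Main

/-!
# Affirmative answer to Q2 of `MP_6c8c83_pr`

For random walk on dynamical percolation on a finite connected vertex-transitive graph of degree
`d`, the `L^∞` mixing time of the full process is at most
`C_d * ((μ p)⁻¹ * t_mix^{SRW,(∞)} + μ⁻¹ * |log (1 - p)|)`, for all `μ ∈ (0,1]`, `p ∈ (0,1)`.
All definitions are in `Pool/Agent/W_MP_6c8c83_pr/Defs.lean`.
-/

namespace Pool.Agent.Results.MP_6c8c83_pr.LInftyMixing

open Pool.Agent.W_MP_6c8c83_pr

/-- **Q2, affirmative.** For every degree `d` there is a constant `C` such that for every finite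
connected vertex-transitive graph `G` of degree `d`, all `μ ∈ (0,1]` and all `p ∈ (0,1)`, the
`L^∞` mixing time of the full process of random walk on dynamical percolation satisfies
`t_mix^{(μ,p),(∞)} ≤ C ((μ p)⁻¹ t_mix^{SRW,(∞)} + μ⁻¹ |log (1 - p)|)`. -/
theorem result.{u} : ∀ d : ℕ, ∃ C : ℝ,
    ∀ (V : Type u) [Fintype V] [DecidableEq V] (G : SimpleGraph V) [DecidableRel G.Adj],
      G.Connected → G.IsRegularOfDegree d → VertexTransitive G →
      ∀ μ p : ℝ, 0 < μ → μ ≤ 1 → 0 < p → p < 1 →
        mixingTimeInf (dynRate G d μ p) (dynLaw G p)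
          ≤ C * ((μ * p)⁻¹ * mixingTimeInf (srwRate G d) (uniformLaw V)
            + μ⁻¹ * |Real.log (1 - p)|) := by
  intro d
  refine ⟨300 * (1 + Real.log d), ?_⟩
  intro V _ _ G _ hc hreg hvt μ p hμ0 hμ1 h0 h1
  rcases Nat.eq_zero_or_pos d with hd | hd
  · -- the one-vertex graph
    subst hd
    have hV : Nonempty V := hc.nonempty
    have hsub : Subsingleton V := by
      constructor
      intro x y
      by_contra hxy
      obtain ⟨w⟩ := hc.preconnected x y
      cases w with
      | nil => exact hxy rfl
      | cons h w =>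
        have h2 : 0 < G.degree x := by
          rw [SimpleGraph.degree_pos_iff_exists_adj]; exact ⟨_, h⟩
        rw [hreg x] at h2
        exact lt_irrefl _ h2
    have hE : IsEmpty G.edgeSet := by
      constructor
      rintro ⟨e, he⟩
      induction e using Sym2.ind with
      | _ x y =>
        have h3 : G.Adj x y := he
        exact h3.ne (Subsingleton.elim x y)
    have hle : mixingTimeInf (dynRate G 0 μ p) (dynLaw G p) ≤ 0 := by
      apply csInf_le ⟨0, fun _ h => h.1⟩
      refine ⟨le_refl _, fun z w => ?_⟩
      have hzw : z = w := Subsingleton.elim z w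
      subst hzw
      have h2 : kernel (dynRate G 0 μ p) 0 z z = 1 := by
        unfold kernel
        rw [zero_smul, NormedSpace.exp_zero, Matrix.one_apply_eq]
      have h3 : dynLaw G p z = 1 := by
        have h4 : Fintype.card V = 1 := Fintype.card_eq_one_iff_nonempty_unique.mpr
          ⟨⟨⟨Classical.choice hV⟩, fun a => Subsingleton.elim _ _⟩⟩
        unfold dynLaw
        rw [h4]
        simp
      rw [h2, h3]; norm_num
    refine hle.trans ?_
    have h5 : 0 ≤ mixingTimeInf (srwRate G 0) (uniformLaw V) :=
      Real.sInf_nonneg (fun t ht => ht.1)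
    have h6 : 0 ≤ |Real.log (1 - p)| := abs_nonneg _
    simp only [Nat.cast_zero, Real.log_zero, add_zero, mul_one]
    positivity
  · exact main_bound G hd hreg hc hvt hμ0 hμ1 h0 h1

end Pool.Agent.Results.MP_6c8c83_pr.LInftyMixing
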